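import Pool.Agent.Helper83.Stab.ThA

/-! Project T, packet T1: the operator of the tensor product of two lines. -/

open CategoryTheory Topology Filter Set Opposite

noncomputable section

namespace Pool.Agent.Helper83.Stab

open Pool.Agent.Helper1.Stab Pool.Agent.Helper84.Sn
open Pool.Agent.Helper63.Stab (jh jh_trans jh_congr jh_comp_symm' tens_jh)
open Pool.Agent.Helper74.Stab (up ET ET_up cc tens_E tens_tens_rr tens_ltens_rr)

variable {R : Biv} (o : Orient R)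

/-- the class `u` vanishes at a coordinate line -/
theorem line_u (S : Type) [Fintype S] (s : S) :
    R.comp (R.J (PMap.ofPoint (K := LC.Pr S 1) (Pr.line s))) (o.u S) = 0 := by
  let j : Unit ↪ S := ⟨fun _ => s, fun _ _ _ => rfl⟩
  have h1 : PMap.ofPoint (K := LC.Pr S 1) (Pr.line s) =
      (Pr.extM j 1).comp (PMap.ofPoint (K := LC.Pr Unit 1) (Pr.line ())) := by
    ext k
    change ((Pr.line s : Pr S 1) : OnePoint (Pr S 1)) =
      ((Pr.ext j (Pr.line ()) : Pr S 1) : OnePoint (Pr S 1))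
    rw [ThL.ext_line]
    rfl
  rw [h1, R.J_comp, R.assoc, o.u_ext, o.u_unit]
  exact comp_zero _

/-- the right unit -/
def ru (K : LC) : K.prod LC.point ≃ₜ K := Homeomorph.prodPUnit K

/-- the three classes -/
def dt (S S' : Type) [Fintype S] [Fintype S'] : R.Hom ((LC.Pr S 1).prod (LC.Pr S' 1)) LC.C :=
  R.comp (R.J (PMap.ofCont (K := (LC.Pr S 1).prod (LC.Pr S' 1)) (L := LC.Pr (S × S') 1) Pr.tensor
    Pr.continuous_tensor)) (o.u (S × S'))
def d1 (S S' : Type) [Fintype S] [Fintype S'] : R.Hom ((LC.Pr S 1).prod (LC.Pr S' 1)) LC.C :=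
  R.comp (R.J (PMap.ofCont (K := (LC.Pr S 1).prod (LC.Pr S' 1)) (L := LC.Pr S 1) (fun x => x.1)
    continuous_fst)) (o.u S)
def d2 (S S' : Type) [Fintype S] [Fintype S'] : R.Hom ((LC.Pr S 1).prod (LC.Pr S' 1)) LC.C :=
  R.comp (R.J (PMap.ofCont (K := (LC.Pr S 1).prod (LC.Pr S' 1)) (L := LC.Pr S' 1) (fun x => x.2)
    continuous_snd)) (o.u S')
def dd (S S' : Type) [Fintype S] [Fintype S'] : R.Hom ((LC.Pr S 1).prod (LC.Pr S' 1)) LC.C :=
  dt o S S' - d1 o S S' - d2 o S S'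

section pt
variable (S S' : Type) [Fintype S] [Fintype S']

theorem left_t (s : S) : R.comp (R.tens (R.J (PMap.ofPoint (K := LC.Pr S 1) (Pr.line s)))
    (LC.Pr S' 1)) (dt o S S') = R.comp (R.J (PMap.ofHomeo (LC.lunit (LC.Pr S' 1)))) (o.u S') := by
  unfold dt
  rw [R.tens_J, ← o.u_ext (OrX.embR S' s), ← R.assoc, ← R.assoc, ← R.J_comp, ← R.J_comp]
  congr 2
  ext ⟨x, y⟩
  exact congrArg (fun z : Pr (S × S') 1 => (z : OnePoint (Pr (S × S') 1))) (OrX.line_tensor s y)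

theorem left_1 (s : S) : R.comp (R.tens (R.J (PMap.ofPoint (K := LC.Pr S 1) (Pr.line s)))
    (LC.Pr S' 1)) (d1 o S S') = 0 := by
  have h : R.comp (R.tens (R.J (PMap.ofPoint (K := LC.Pr S 1) (Pr.line s)))
    (LC.Pr S' 1)) (d1 o S S') = R.comp (R.J (PMap.toPoint (LC.point.prod (LC.Pr S' 1))))
      (R.comp (R.J (PMap.ofPoint (K := LC.Pr S 1) (Pr.line s))) (o.u S)) := by
    unfold d1
    rw [R.tens_J, ← R.assoc, ← R.assoc, ← R.J_comp, ← R.J_comp]
    congr 2
  rw [h, line_u]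
  exact comp_zero _

theorem left_2 (s : S) : R.comp (R.tens (R.J (PMap.ofPoint (K := LC.Pr S 1) (Pr.line s)))
    (LC.Pr S' 1)) (d2 o S S') = R.comp (R.J (PMap.ofHomeo (LC.lunit (LC.Pr S' 1)))) (o.u S') := by
  unfold d2
  rw [R.tens_J, ← R.assoc, ← R.J_comp]
  congr 2

theorem left_dd (s : S) : R.comp (R.tens (R.J (PMap.ofPoint (K := LC.Pr S 1) (Pr.line s)))
    (LC.Pr S' 1)) (dd o S S') = 0 := by
  unfold dd
  have h1 := comp_sub (R.tens (R.J (PMap.ofPoint (K := LC.Pr S 1) (Pr.line s)))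
    (LC.Pr S' 1)) (dt o S S' - d1 o S S') (d2 o S S')
  have h2 := comp_sub (R.tens (R.J (PMap.ofPoint (K := LC.Pr S 1) (Pr.line s)))
    (LC.Pr S' 1)) (dt o S S') (d1 o S S')
  refine h1.trans ?_
  rw [h2, left_t, left_1, left_2, sub_zero, sub_self]

theorem right_t (s : S') : R.comp (R.ltens (LC.Pr S 1) (R.J (PMap.ofPoint (K := LC.Pr S' 1)
    (Pr.line s)))) (dt o S S') = R.comp (R.J (PMap.ofHomeo (ru (LC.Pr S 1)))) (o.u S) := by
  unfold dt
  rw [ltens_J, ← o.u_ext (OrX.embL S s), ← R.assoc, ← R.assoc, ← R.J_comp, ← R.J_comp]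
  congr 2
  ext ⟨x, y⟩
  exact congrArg (fun z : Pr (S × S') 1 => (z : OnePoint (Pr (S × S') 1))) (OrX.tensor_line x s)

theorem right_2 (s : S') : R.comp (R.ltens (LC.Pr S 1) (R.J (PMap.ofPoint (K := LC.Pr S' 1)
    (Pr.line s)))) (d2 o S S') = 0 := by
  have h : R.comp (R.ltens (LC.Pr S 1) (R.J (PMap.ofPoint (K := LC.Pr S' 1)
    (Pr.line s)))) (d2 o S S') = R.comp (R.J (PMap.toPoint ((LC.Pr S 1).prod LC.point)))
      (R.comp (R.J (PMap.ofPoint (K := LC.Pr S' 1) (Pr.line s))) (o.u S')) := by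
    unfold d2
    rw [ltens_J, ← R.assoc, ← R.assoc, ← R.J_comp, ← R.J_comp]
    congr 2
  rw [h, line_u]
  exact comp_zero _

theorem right_1 (s : S') : R.comp (R.ltens (LC.Pr S 1) (R.J (PMap.ofPoint (K := LC.Pr S' 1)
    (Pr.line s)))) (d1 o S S') = R.comp (R.J (PMap.ofHomeo (ru (LC.Pr S 1)))) (o.u S) := by
  unfold d1
  rw [ltens_J, ← R.assoc, ← R.J_comp]
  congr 2

theorem right_dd (s : S') : R.comp (R.ltens (LC.Pr S 1) (R.J (PMap.ofPoint (K := LC.Pr S' 1)
    (Pr.line s)))) (dd o S S') = 0 := by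
  unfold dd
  have h1 := comp_sub (R.ltens (LC.Pr S 1) (R.J (PMap.ofPoint (K := LC.Pr S' 1)
    (Pr.line s)))) (dt o S S' - d1 o S S') (d2 o S S')
  have h2 := comp_sub (R.ltens (LC.Pr S 1) (R.J (PMap.ofPoint (K := LC.Pr S' 1)
    (Pr.line s)))) (dt o S S') (d1 o S S')
  refine h1.trans ?_
  rw [h2, right_t, right_1, right_2, sub_zero, sub_self]

/-- the class `b_0 × y` is orthogonal to `dd` -/
theorem b0_bx_dd (hS : 0 < Fintype.card S) {K : LC} (y : R.Hom K (LC.Pr S' 1)) :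
    R.comp (bx (o.b S 0) y) (dd o S S') = 0 := by
  obtain ⟨s⟩ := Fintype.card_pos_iff.1 hS
  rw [o.b_zero S s, bx_eq]
  have h := left_dd o S S' s
  have h2 := R.assoc (R.ltens LC.point y) (R.tens (R.J (PMap.ofPoint (K := LC.Pr S 1) (Pr.line s)))
    (LC.Pr S' 1)) (dd o S S')
  refine h2.trans ?_
  rw [h]
  exact comp_zero _

/-- the class `x × b_0` is orthogonal to `dd` -/
theorem bx_b0_dd (hS : 0 < Fintype.card S') {K : LC} (x : R.Hom K (LC.Pr S 1)) :
    R.comp (bx x (o.b S' 0)) (dd o S S') = 0 := by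
  obtain ⟨s⟩ := Fintype.card_pos_iff.1 hS
  rw [o.b_zero S' s]
  have h := right_dd o S S' s
  have h2 := R.assoc (R.tens x LC.point) (R.ltens (LC.Pr S 1) (R.J (PMap.ofPoint (K := LC.Pr S' 1)
    (Pr.line s)))) (dd o S S')
  refine h2.trans ?_
  rw [h]
  exact comp_zero _

end pt

/-- the difference of the three operators -/
theorem E_dd (S S' : Type) [Fintype S] [Fintype S'] :
    o.E (X := (LC.Pr S 1).prod (LC.Pr S' 1)) Pr.tensor Pr.continuous_tensor -
      o.E (X := (LC.Pr S 1).prod (LC.Pr S' 1)) (fun x => x.1) continuous_fst -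
      o.E (X := (LC.Pr S 1).prod (LC.Pr S' 1)) (fun x => x.2) continuous_snd =
      R.comp (R.J (dg ((LC.Pr S 1).prod (LC.Pr S' 1))))
        (R.ltens ((LC.Pr S 1).prod (LC.Pr S' 1)) (dd o S S')) := by
  rw [E_eq, E_eq, E_eq]
  unfold dd
  rw [ltens_sub, ltens_sub]
  have h1 := comp_sub (R.J (dg ((LC.Pr S 1).prod (LC.Pr S' 1))))
    (R.ltens ((LC.Pr S 1).prod (LC.Pr S' 1)) (dt o S S') -
      R.ltens ((LC.Pr S 1).prod (LC.Pr S' 1)) (d1 o S S'))
    (R.ltens ((LC.Pr S 1).prod (LC.Pr S' 1)) (d2 o S S'))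
  have h2 := comp_sub (R.J (dg ((LC.Pr S 1).prod (LC.Pr S' 1))))
    (R.ltens ((LC.Pr S 1).prod (LC.Pr S' 1)) (dt o S S'))
      (R.ltens ((LC.Pr S 1).prod (LC.Pr S' 1)) (d1 o S S'))
  rw [h1, h2]
  rfl

/-- the coefficients -/
def zz (S S' : Type) [Fintype S] [Fintype S'] (i j m n : ℕ) :
    R.Hom ((Cn i).prod (Cn j)) (((Cn m).prod (Cn n)).prod LC.C) :=
  R.comp (R.comp (bx (o.b S i) (o.b S' j)) (R.comp (R.J (dg ((LC.Pr S 1).prod (LC.Pr S' 1))))
    (R.ltens ((LC.Pr S 1).prod (LC.Pr S' 1)) (dd o S S'))))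
    (R.tens (bx (up o S m) (up o S' n)) LC.C)

theorem zz_zero (S S' : Type) [Fintype S] [Fintype S'] (i j m n : ℕ) (hi : i < Fintype.card S)
    (hj : j < Fintype.card S') (h : i ≤ m ∨ j ≤ n) : zz o S S' i j m n = 0 := by
  unfold zz
  rw [R.assoc, dg_exch, ← R.assoc]
  obtain ⟨r, r', a, hr, hr', h1, h2, h3⟩ := bb_cap o S S' m n i j hi hj
  rw [h3, R.assoc]
  have h4 : R.comp (bx (o.b S r) (o.b S' r')) (dd o S S') = 0 := by
    rcases h with h | h
    · obtain rfl := h1 h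
      exact b0_bx_dd o S S' (by omega) (o.b S' r')
    · obtain rfl := h2 h
      exact bx_b0_dd o S S' (by omega) (o.b S r)
  have h5 := ltens_comp (bx (o.b S r) (o.b S' r')) (dd o S S') ((Cn m).prod (Cn n))
  rw [h4, ltens_zero] at h5
  refine (congrArg (R.comp a) h5.symm).trans ?_
  exact comp_zero _

theorem expand (S S' : Type) [Fintype S] [Fintype S'] :
    ∑ m ∈ Finset.range (Fintype.card S), ∑ n ∈ Finset.range (Fintype.card S'),
      R.comp (bx (up o S m) (up o S' n)) (bx (o.b S m) (o.b S' n)) =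
      one R ((LC.Pr S 1).prod (LC.Pr S' 1)) := by
  rw [← one_bx_one]
  have h1 : ∑ i ∈ Finset.range (Fintype.card S), R.comp (up o S i) (o.b S i) =
    one R (LC.Pr S 1) := (o.b_dual S).sum
  have h2 : ∑ i ∈ Finset.range (Fintype.card S'), R.comp (up o S' i) (o.b S' i) =
    one R (LC.Pr S' 1) := (o.b_dual S').sum
  rw [← h1, ← h2, sum_bx]
  refine Finset.sum_congr rfl fun m _ => ?_
  rw [bx_sum]
  refine Finset.sum_congr rfl fun n _ => ?_
  exact (bx_comp _ _ _ _).symm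

theorem bb_Et (S S' : Type) [Fintype S] [Fintype S'] (i j : ℕ) (hi : i < Fintype.card S)
    (hj : j < Fintype.card S') :
    R.comp (bx (o.b S i) (o.b S' j))
      (o.E (X := (LC.Pr S 1).prod (LC.Pr S' 1)) Pr.tensor Pr.continuous_tensor -
      o.E (X := (LC.Pr S 1).prod (LC.Pr S' 1)) (fun x => x.1) continuous_fst -
      o.E (X := (LC.Pr S 1).prod (LC.Pr S' 1)) (fun x => x.2) continuous_snd) =
      ∑ m ∈ Finset.range i, ∑ n ∈ Finset.range j,
        R.comp (zz o S S' i j m n) (R.tens (bx (o.b S m) (o.b S' n)) LC.C) := by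
  rw [E_dd]
  have h0 : ∀ y : R.Hom ((Cn i).prod (Cn j)) (((LC.Pr S 1).prod (LC.Pr S' 1)).prod LC.C),
      y = ∑ m ∈ Finset.range (Fintype.card S), ∑ n ∈ Finset.range (Fintype.card S'),
        R.comp (R.comp y (R.tens (bx (up o S m) (up o S' n)) LC.C))
          (R.tens (bx (o.b S m) (o.b S' n)) LC.C) := by
    intro y
    have h1 : R.comp y (R.tens (one R ((LC.Pr S 1).prod (LC.Pr S' 1))) LC.C) = y := by
      rw [tens_one]
      exact R.comp_id y
    conv_lhs => rw [← h1, ← expand o S S', tens_sum, comp_sum]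
    refine Finset.sum_congr rfl fun m _ => ?_
    rw [tens_sum, comp_sum]
    refine Finset.sum_congr rfl fun n _ => ?_
    rw [R.tens_comp, R.assoc]
  have h2 := h0 (R.comp (bx (o.b S i) (o.b S' j)) (R.comp (R.J (dg ((LC.Pr S 1).prod (LC.Pr S' 1))))
    (R.ltens ((LC.Pr S 1).prod (LC.Pr S' 1)) (dd o S S'))))
  refine h2.trans ?_
  have h3 : ∀ m n, i ≤ m ∨ j ≤ n →
      R.comp (zz o S S' i j m n) (R.tens (bx (o.b S m) (o.b S' n)) LC.C) = 0 := by
    intro m n h
    rw [zz_zero o S S' i j m n hi hj h]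
    exact zero_comp _
  symm
  have h4 : ∑ m ∈ Finset.range i, ∑ n ∈ Finset.range j,
        R.comp (zz o S S' i j m n) (R.tens (bx (o.b S m) (o.b S' n)) LC.C) =
      ∑ m ∈ Finset.range i, ∑ n ∈ Finset.range (Fintype.card S'),
        R.comp (zz o S S' i j m n) (R.tens (bx (o.b S m) (o.b S' n)) LC.C) := by
    refine Finset.sum_congr rfl fun m _ => ?_
    refine Finset.sum_subset (Finset.range_subset_range.2 hj.le) fun n _ hn => ?_
    exact h3 m n (Or.inr (by simpa using hn))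
  rw [h4]
  refine Finset.sum_subset (Finset.range_subset_range.2 hi.le) fun m _ hm => ?_
  refine Finset.sum_eq_zero fun n _ => ?_
  exact h3 m n (Or.inl (by simpa using hm))

end Pool.Agent.Helper83.Stab
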