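import Pool.Agent.Helper1.Stab.T.PolyT
import Pool.Agent.Helper84.Sn.Calc

/-! Project T, packet T1: the operator of the tensor product of two lines. -/

open CategoryTheory Topology Filter Set Opposite

noncomputable section

namespace Pool.Agent.Helper83.Stab

open Pool.Agent.Helper1.Stab Pool.Agent.Helper84.Sn
open Pool.Agent.Helper63.Stab (jh jh_trans jh_congr jh_comp_symm' tens_jh)
open Pool.Agent.Helper74.Stab (up ET ET_up cc tens_E tens_tens_rr tens_ltens_rr)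

variable {R : Biv} (o : Orient R)

/-- the diagonal -/
def dg (X : LC) : PMap X (X.prod X).plus := graph (X := X) (L := X) (fun x => x) continuous_id

/-- exchange of a cap with a class of degree two -/
theorem dg_exch {X M C : LC} (f : R.Hom X M) (d : R.Hom X C) :
    R.comp (R.comp (R.J (dg X)) (R.ltens X d)) (R.tens f C) =
      R.comp (R.comp (R.J (dg X)) (R.tens f X)) (R.ltens M d) := by
  have h : R.comp (R.tens f X) (R.ltens M d) = R.comp (R.ltens X d) (R.tens f C) := R.exch f d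
  rw [R.assoc, R.assoc, h]

theorem E_eq {X : LC} [CompactSpace X] {S : Type} [Fintype S] (l : X → Pr S 1)
    (hl : Continuous l) :
    o.E l hl = R.comp (R.J (dg X)) (R.ltens X (R.comp (R.J (PMap.ofCont (K := X)
      (L := LC.Pr S 1) l hl)) (o.u S))) := by
  have h : R.ltens X (R.comp (R.J (PMap.ofCont (K := X) (L := LC.Pr S 1) l hl)) (o.u S)) =
      R.comp (R.J (PMap.ltens X (PMap.ofCont (K := X) (L := LC.Pr S 1) l hl)))
        (R.ltens X (o.u S)) := by
    rw [← ltens_J]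
    exact ltens_comp _ _ _
  rw [h, ← R.assoc, ← R.J_comp]
  rfl

/-- the cap with the class `u^m` -/
def capS (S : Type) [Fintype S] (m : ℕ) : R.Hom (LC.Pr S 1) ((Cn m).prod (LC.Pr S 1)) :=
  R.comp (R.J (dg (LC.Pr S 1))) (R.tens (up o S m) (LC.Pr S 1))

/-- `(ℂ^m × P) × ℂ = ℂ^(m+1) × P` -/
def sg (m : ℕ) (P : LC) : ((Cn m).prod P).prod LC.C ≃ₜ (Cn (m + 1)).prod P :=
  Pool.Agent.Helper74.Stab.rr (Cn m) P LC.C

theorem dg_ET (S : Type) [Fintype S] :
    R.comp (R.J (dg (LC.Pr S 1))) (R.tens (ET o S) (LC.Pr S 1)) =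
      R.comp (ET o S) (R.comp (R.tens (R.J (dg (LC.Pr S 1))) LC.C)
        (jh R (Pool.Agent.Helper74.Stab.rr (LC.Pr S 1) (LC.Pr S 1) LC.C))) := by
  have h1 := o.E_natural (dg (LC.Pr S 1)) (X := (LC.Pr S 1).prod (LC.Pr S 1)) (Y := LC.Pr S 1)
    (l := fun x => x.1) (m := fun P => P) continuous_fst continuous_id (fun y x hy => by
      have h := OnePoint.coe_injective hy
      rw [← h])
  have h2 := tens_E o (X := LC.Pr S 1) (fun P => P) continuous_id (LC.Pr S 1)
  have h3 : o.E (X := (LC.Pr S 1).prod (LC.Pr S 1)) (fun x => x.1) continuous_fst =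
      R.comp (R.tens (ET o S) (LC.Pr S 1))
        (jh R (Pool.Agent.Helper74.Stab.rr (LC.Pr S 1) LC.C (LC.Pr S 1))) := h2.symm
  rw [h3] at h1
  have h4 : R.comp (R.comp (R.tens (ET o S) (LC.Pr S 1))
        (jh R (Pool.Agent.Helper74.Stab.rr (LC.Pr S 1) LC.C (LC.Pr S 1))))
        (jh R (Pool.Agent.Helper74.Stab.rr (LC.Pr S 1) (LC.Pr S 1) LC.C)) =
      R.tens (ET o S) (LC.Pr S 1) := by
    rw [R.assoc, ← jh_trans]
    have h5 : jh R ((Pool.Agent.Helper74.Stab.rr (LC.Pr S 1) LC.C (LC.Pr S 1)).trans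
        (Pool.Agent.Helper74.Stab.rr (LC.Pr S 1) (LC.Pr S 1) LC.C)) = R.J (PMap.id _) :=
      Pool.Agent.Helper63.Stab.jh_id R fun k => rfl
    rw [h5, R.comp_id]
  rw [← h4, ← R.assoc, h1, R.assoc]
  rfl

theorem capS_succ (S : Type) [Fintype S] (m : ℕ) :
    capS o S (m + 1) = R.comp (ET o S) (R.comp (R.tens (capS o S m) LC.C)
      (jh R (sg m (LC.Pr S 1)))) := by
  unfold capS
  have h1 := tens_tens_rr (up o S m) (LC.Pr S 1) LC.C
  rw [← ET_up, R.tens_comp, R.tens_comp, ← R.assoc, dg_ET, R.tens_comp]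
  simp only [R.assoc]
  rw [← R.assoc (jh R (Pool.Agent.Helper74.Stab.rr (LC.Pr S 1) (LC.Pr S 1) LC.C)), ← h1, R.assoc,
    tens_jh, ← jh_trans]
  rfl

theorem capS_zero (S : Type) [Fintype S] :
    capS o S 0 = R.J (PMap.ofHomeo (LC.lunit (LC.Pr S 1)).symm) := by
  unfold capS up
  rw [Pool.Agent.Helper74.Stab.pw_zero]
  unfold Pool.Agent.Helper63.Stab.jh
  rw [R.tens_J, ← R.J_comp, ← R.J_comp, R.tens_J, ← R.J_comp]
  rfl

/-- the cap of `b_i` with `u^m` -/
theorem b_capS (S : Type) [Fintype S] (m : ℕ) : ∀ i, i < Fintype.card S →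
    ∃ (r : ℕ) (a : R.Hom (Cn i) ((Cn m).prod (Cn r))), r < Fintype.card S ∧ (i ≤ m → r = 0) ∧
      R.comp (o.b S i) (capS o S m) = R.comp a (R.ltens (Cn m) (o.b S r)) := by
  induction m with
  | zero =>
    intro i hi
    refine ⟨i, R.J (PMap.ofHomeo (LC.lunit (Cn i)).symm), hi, fun h => by omega, ?_⟩
    rw [capS_zero]
    have h1 : Sq (PMap.ofHomeo (LC.lunit (Cn i))) (bx (one R LC.point) (o.b S i)) (o.b S i)
        (PMap.ofHomeo (LC.lunit (LC.Pr S 1))) := point_bx (o.b S i)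
    have h2 := h1.symm
    rw [one_bx] at h2
    exact h2
  | succ m ih =>
    intro i hi
    rw [capS_succ]
    rcases i with _ | k
    · refine ⟨0, 0, hi, fun _ => rfl, ?_⟩
      have h0 : R.comp (o.b S 0) (ET o S) = 0 := o.b_cap_zero S
      rw [← R.assoc, h0]
      exact (zero_comp _).trans (zero_comp _).symm
    · obtain ⟨r, a, hr, hr2, h⟩ := ih k (by omega)
      refine ⟨r, R.comp (R.tens a LC.C) (jh R (sg m (Cn r))), hr, fun h => hr2 (by omega), ?_⟩
      have h0 : R.comp (o.b S (k + 1)) (ET o S) = R.tens (o.b S k) LC.C := o.b_cap S k hi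
      have h3 : R.comp (R.tens (R.ltens (Cn m) (o.b S r)) LC.C) (jh R (sg m (LC.Pr S 1))) =
          R.comp (jh R (sg m (Cn r))) (R.ltens (Cn (m + 1)) (o.b S r)) :=
        tens_ltens_rr (Cn m) LC.C (o.b S r)
      have h4 : R.comp (o.b S (k + 1)) (R.comp (ET o S) (R.comp (R.tens (capS o S m) LC.C)
          (jh R (sg m (LC.Pr S 1))))) = R.comp (R.tens (R.comp (o.b S k) (capS o S m)) LC.C)
          (jh R (sg m (LC.Pr S 1))) := by
        rw [R.tens_comp, ← h0]
        simp only [R.assoc]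
        exact (R.assoc _ _ _).symm
      refine h4.trans ?_
      rw [h, R.tens_comp, R.assoc, h3]
      simp only [R.assoc]
      rfl

/-- the diagonal of a product -/
theorem dg_prod (P Q : LC) : R.J (dg (P.prod Q)) =
    R.comp (bx (R.J (dg P)) (R.J (dg Q))) (R.J (PMap.ofHomeo (mid4 P P Q Q))) := by
  rw [bx_J, ← R.J_comp]
  rfl

/-- the cap of `b_i × b_j` with `u^m × u^n` -/
theorem bb_cap (S S' : Type) [Fintype S] [Fintype S'] (m n i j : ℕ) (hi : i < Fintype.card S)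
    (hj : j < Fintype.card S') :
    ∃ (r r' : ℕ) (a : R.Hom ((Cn i).prod (Cn j)) (((Cn m).prod (Cn n)).prod
      ((Cn r).prod (Cn r')))), r < Fintype.card S ∧ r' < Fintype.card S' ∧ (i ≤ m → r = 0) ∧
      (j ≤ n → r' = 0) ∧
      R.comp (bx (o.b S i) (o.b S' j)) (R.comp (R.J (dg ((LC.Pr S 1).prod (LC.Pr S' 1))))
        (R.tens (bx (up o S m) (up o S' n)) ((LC.Pr S 1).prod (LC.Pr S' 1)))) =
        R.comp a (R.ltens ((Cn m).prod (Cn n)) (bx (o.b S r) (o.b S' r'))) := by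
  obtain ⟨r, a, hr, hr2, h⟩ := b_capS o S m i hi
  obtain ⟨r', a', hr', hr2', h'⟩ := b_capS o S' n j hj
  refine ⟨r, r', R.comp (bx a a') (R.J (PMap.ofHomeo (mid4 (Cn m) (Cn r) (Cn n) (Cn r')))), hr, hr',
    hr2, hr2', ?_⟩
  have e1 := bx_mid4 (up o S m) (one R (LC.Pr S 1)) (up o S' n) (one R (LC.Pr S' 1))
  rw [one_bx_one, bx_one, bx_one, bx_one] at e1
  have e2 := bx_mid4 (one R (Cn m)) (o.b S r) (one R (Cn n)) (o.b S' r')
  rw [one_bx_one, one_bx, one_bx, one_bx] at e2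
  have e3 : R.comp (bx (o.b S i) (o.b S' j)) (bx (capS o S m) (capS o S' n)) =
      R.comp (bx a a') (bx (R.ltens (Cn m) (o.b S r)) (R.ltens (Cn n) (o.b S' r'))) := by
    have e4 := bx_comp (o.b S i) (capS o S m) (o.b S' j) (capS o S' n)
    have e5 := bx_comp a (R.ltens (Cn m) (o.b S r)) a' (R.ltens (Cn n) (o.b S' r'))
    rw [h, h'] at e4
    exact e4.symm.trans e5
  have e6 : bx (capS o S m) (capS o S' n) = R.comp (bx (R.J (dg (LC.Pr S 1)))
      (R.J (dg (LC.Pr S' 1)))) (bx (R.tens (up o S m) (LC.Pr S 1))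
        (R.tens (up o S' n) (LC.Pr S' 1))) := bx_comp _ _ _ _
  have e7 : R.comp (R.J (dg ((LC.Pr S 1).prod (LC.Pr S' 1))))
        (R.tens (bx (up o S m) (up o S' n)) ((LC.Pr S 1).prod (LC.Pr S' 1))) =
      R.comp (bx (capS o S m) (capS o S' n))
        (R.J (PMap.ofHomeo (mid4 (Cn m) (LC.Pr S 1) (Cn n) (LC.Pr S' 1)))) := by
    rw [dg_prod, R.assoc, e6, R.assoc]
    exact congrArg (R.comp (bx (R.J (dg (LC.Pr S 1))) (R.J (dg (LC.Pr S' 1))))) e1.symm
  rw [e7, ← R.assoc, e3, R.assoc, R.assoc]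
  exact congrArg (R.comp (bx a a')) e2

end Pool.Agent.Helper83.Stab
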